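import Pool.Agent.W617.LG.StmI
/-! Laugwitz' problem (MP_7dd29b_gt), Part I: summing the series `N^κ = Σ κ^j B_j` (S_NF).
Hypotheses: S_SER and S_UNI. -/
set_option autoImplicit false
set_option maxSynthPendingDepth 3
open Topology Filter Set Matrix
open scoped ContDiff InnerProductSpace

namespace Pool.Agent.W961.LG
open Pool.Agent.W617.LG

section
variable {V W : Type*} [NormedAddCommGroup V] [NormedSpace ℝ V] [NormedAddCommGroup W]
  [NormedSpace ℝ W] [CompleteSpace W]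

lemma gsummable_geo (R κ : ℝ) : Summable (fun j : ℕ => |κ| ^ j * (R ^ j / (j.factorial : ℝ))) := by
  have := Real.summable_pow_div_factorial (|κ| * R)
  refine this.congr (fun j => ?_)
  rw [mul_pow]; ring

/-- termwise differentiation of `Σ κ^j b_j` -/
lemma gen_deriv (b : ℕ → V → W) (Φ : V → W →L[ℝ] (V →L[ℝ] W)) (s : Set V) (hs : IsOpen s)
    (hps : IsPreconnected s) (K R κ : ℝ) (hK : ∀ z ∈ s, ‖Φ z‖ ≤ K)
    (c : W) (hb0 : ∀ z, b 0 z = c) (hbd : ∀ j, ∀ z ∈ s, HasFDerivAt (b (j + 1)) (Φ z (b j z)) z)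
    (hbn : ∀ j, ∀ z ∈ s, ‖b j z‖ ≤ R ^ j / (j.factorial : ℝ)) (y : V) (hy : y ∈ s) :
    HasFDerivAt (fun z => ∑' j : ℕ, κ ^ j • b j z) (κ • Φ y (∑' j : ℕ, κ ^ j • b j y)) y := by
  have hsn : ∀ z ∈ s, ∀ j : ℕ, ‖κ ^ j • b j z‖ ≤ |κ| ^ j * (R ^ j / (j.factorial : ℝ)) := by
    intro z hz j
    rw [norm_smul, norm_pow, Real.norm_eq_abs]
    gcongr
    exact hbn j z hz
  have hsum : ∀ z ∈ s, Summable (fun j : ℕ => κ ^ j • b j z) := by
    intro z hz
    exact Summable.of_norm_bounded (gsummable_geo R κ) (hsn z hz)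
  set f' : ℕ → V → (V →L[ℝ] W) := fun j z =>
    match j with
    | 0 => 0
    | j + 1 => κ • Φ z (κ ^ j • b j z) with hf'
  have hu : Summable (fun j : ℕ => match j with
    | 0 => (0 : ℝ)
    | j + 1 => |κ| * (K * (|κ| ^ j * (R ^ j / (j.factorial : ℝ))))) := by
    rw [← summable_nat_add_iff 1]
    exact ((gsummable_geo R κ).mul_left _).mul_left _
  have hK0 : 0 ≤ K := (norm_nonneg _).trans (hK y hy)
  have key := hasFDerivAt_tsum_of_isPreconnected (𝕜 := ℝ) (f := fun (j : ℕ) z => κ ^ j • b j z)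
    (f' := f') hu hs hps (x₀ := y) (x := y) ?_ ?_ hy (hsum y hy) hy
  · have hs1 : HasSum (fun j : ℕ => κ • Φ y (κ ^ j • b j y))
        (κ • Φ y (∑' j : ℕ, κ ^ j • b j y)) := ((Φ y).hasSum (hsum y hy).hasSum).const_smul κ
    have hs2 : HasSum (fun j : ℕ => f' j y) (κ • Φ y (∑' j : ℕ, κ ^ j • b j y)) := by
      rw [← hasSum_nat_add_iff' 1]
      simpa [hf'] using hs1
    rw [hs2.tsum_eq] at key
    exact key
  · intro j z hz
    cases j with
    | zero =>
      have : (fun z => κ ^ 0 • b 0 z) = fun _ => c := by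
        funext z; simp [hb0]
      show HasFDerivAt (fun z => κ ^ 0 • b 0 z) 0 z
      rw [this]
      exact hasFDerivAt_const _ _
    | succ j =>
      have h := (hbd j z hz).const_smul (κ ^ (j + 1))
      have e : κ • Φ z (κ ^ j • b j z) = κ ^ (j + 1) • Φ z (b j z) := by
        rw [(Φ z).map_smul, smul_smul, pow_succ, mul_comm]
      show HasFDerivAt (fun z => κ ^ (j + 1) • b (j + 1) z) (κ • Φ z (κ ^ j • b j z)) z
      rw [e]
      exact h
  · intro j z hz
    cases j with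
    | zero => simp [hf']
    | succ j =>
      show ‖κ • Φ z (κ ^ j • b j z)‖ ≤ |κ| * (K * (|κ| ^ j * (R ^ j / (j.factorial : ℝ))))
      rw [norm_smul, Real.norm_eq_abs]
      gcongr
      exact ((Φ z).le_opNorm _).trans (mul_le_mul (hK z hz) (hsn z hz j) (norm_nonneg _) hK0)

/-- continuity of `Σ κ^j b_j` in both variables -/
lemma gen_cont (b : ℕ → V → W) (s : Set V) (hs : IsOpen s) (R : ℝ)
    (hbc : ∀ j, ∀ z ∈ s, ContinuousAt (b j) z)
    (hbn : ∀ j, ∀ z ∈ s, ‖b j z‖ ≤ R ^ j / (j.factorial : ℝ)) :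
    ContinuousOn (fun p : ℝ × V => ∑' j : ℕ, p.1 ^ j • b j p.2) {p | p.2 ∈ s} := by
  rintro ⟨κ₀, y₀⟩ hy₀
  have hy₀' : y₀ ∈ s := hy₀
  set t : Set (ℝ × V) := {p | |p.1| < |κ₀| + 1 ∧ p.2 ∈ s} with ht
  have hto : IsOpen t :=
    (isOpen_lt (continuous_abs.comp continuous_fst) continuous_const).inter
      (hs.preimage continuous_snd)
  have hmem : (κ₀, y₀) ∈ t := ⟨by simp, hy₀'⟩
  have hc : ContinuousOn (fun p : ℝ × V => ∑' j : ℕ, p.1 ^ j • b j p.2) t := by
    refine continuousOn_tsum (u := fun j : ℕ => |(|κ₀| + 1)| ^ j * (R ^ j / (j.factorial : ℝ)))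
      (fun j => ?_) (gsummable_geo R _) (fun j z hz => ?_)
    · rintro ⟨κ, y⟩ hz
      have hz2 : y ∈ s := hz.2
      exact ((continuous_fst.pow j).continuousAt.smul
        ((hbc j y hz2).comp_of_eq continuousAt_snd rfl)).continuousWithinAt
    · have h0 : (0 : ℝ) ≤ R ^ j / (j.factorial : ℝ) := (norm_nonneg _).trans (hbn j z.2 hz.2)
      rw [norm_smul, norm_pow, Real.norm_eq_abs]
      refine mul_le_mul (pow_le_pow_left₀ (abs_nonneg _) (hz.1.le.trans (le_abs_self _)) j)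
        (hbn j z.2 hz.2) (norm_nonneg _) (by positivity)
  exact (hc.continuousAt (hto.mem_nhds hmem)).continuousWithinAt

end

section

variable {q : ℕ}

/-- `T ↦ T ∘ M ·` as a continuous linear map -/
noncomputable def Phi (m : E q →L[ℝ] E q →L[ℝ] E q) :
    (E q →L[ℝ] E q) →L[ℝ] (E q →L[ℝ] (E q →L[ℝ] E q)) :=
  ((ContinuousLinearMap.compL ℝ (E q) (E q →L[ℝ] E q) (E q →L[ℝ] E q)).flip m).comp
    (ContinuousLinearMap.compL ℝ (E q) (E q) (E q))

lemma Phi_apply (m : E q →L[ℝ] E q →L[ℝ] E q) (T : E q →L[ℝ] E q) :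
    Phi m T = (ContinuousLinearMap.compL ℝ (E q) (E q) (E q) T).comp m := rfl

lemma norm_Phi_le (m : E q →L[ℝ] E q →L[ℝ] E q) : ‖Phi m‖ ≤ ‖m‖ := by
  refine ContinuousLinearMap.opNorm_le_bound _ (norm_nonneg m) (fun T => ?_)
  rw [Phi_apply]
  refine ContinuousLinearMap.opNorm_le_bound _ (by positivity) (fun v => ?_)
  have h1 : ((ContinuousLinearMap.compL ℝ (E q) (E q) (E q) T).comp m) v = T.comp (m v) := rfl
  rw [h1]
  calc ‖T.comp (m v)‖ ≤ ‖T‖ * ‖m v‖ := ContinuousLinearMap.opNorm_comp_le _ _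
    _ ≤ ‖T‖ * (‖m‖ * ‖v‖) := by gcongr; exact m.le_opNorm v
    _ = ‖m‖ * ‖T‖ * ‖v‖ := by ring

/-- a non-invertible operator is killed by a functional -/
lemma exists_functional (T : E q →L[ℝ] E q) (hT : ¬ IsUnit T) :
    ∃ l : E q →L[ℝ] ℝ, l ≠ 0 ∧ l.comp T = 0 := by
  have hns : ¬ Function.Surjective T := by
    intro hs
    apply hT
    rw [ContinuousLinearMap.isUnit_iff_bijective]
    exact ⟨(LinearMap.injective_iff_surjective (f := (T : E q →ₗ[ℝ] E q))).2 hs, hs⟩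
  have hlt : LinearMap.range (T : E q →ₗ[ℝ] E q) < ⊤ := by
    rw [lt_top_iff_ne_top]
    intro h
    exact hns (LinearMap.range_eq_top.1 h)
  obtain ⟨l, hl0, hl⟩ := Submodule.exists_le_ker_of_lt_top _ hlt
  refine ⟨LinearMap.toContinuousLinearMap l, ?_, ?_⟩
  · intro h
    apply hl0
    ext v
    have := DFunLike.congr_fun h v
    simpa using this
  · ext v
    have : T v ∈ LinearMap.ker l := hl ⟨v, rfl⟩
    simpa using this

end

theorem nf (hS : S_SER) (hU : S_UNI) : S_NF := by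
  intro q G M hd
  obtain ⟨B, R, p, hR, hp, hB0, hBd, hBn, hBh, hBp⟩ := hS q G M hd
  -- continuity of the `B j`
  have hBc : ∀ j y, y ≠ 0 → ContinuousAt (B j) y := by
    intro j y hy
    cases j with
    | zero => rw [hB0]; exact continuousAt_const
    | succ j => exact (hBd j y hy).continuousAt
  have hder : ∀ (κ : ℝ) (y : E q), y ≠ 0 → HasFDerivAt (fun y => ∑' j : ℕ, κ ^ j • B j y)
      (κ • ((ContinuousLinearMap.compL ℝ (E q) (E q) (E q) (∑' j : ℕ, κ ^ j • B j y)).comp (M y))) y := by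
    intro κ y hy
    -- a ball around `y` where `M` is bounded
    have hMc : ContinuousAt M y := (hd.Msm y hy).continuousAt
    have hMn : ContinuousAt (fun z => ‖M z‖) y :=
      (continuous_norm (E := E q →L[ℝ] E q →L[ℝ] E q)).continuousAt.comp hMc
    have hev1 : ∀ᶠ z in 𝓝 y, ‖M z‖ < ‖M y‖ + 1 :=
      hMn.eventually_lt continuousAt_const (by linarith)
    have hev2 : ∀ᶠ z in 𝓝 y, z ≠ 0 := isOpen_ne.mem_nhds hy
    obtain ⟨r, hr, hball⟩ := Metric.eventually_nhds_iff_ball.1 (hev1.and hev2)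
    exact gen_deriv B (fun z => Phi (M z)) (Metric.ball y r) Metric.isOpen_ball
      (convex_ball y r).isPreconnected (‖M y‖ + 1) R κ
      (fun z hz => (norm_Phi_le _).trans (hball z hz).1.le) (ContinuousLinearMap.id ℝ (E q))
      (fun z => by rw [hB0]) (fun j z hz => hBd j z (hball z hz).2)
      (fun j z hz => hBn j z (hball z hz).2) y (Metric.mem_ball_self hr)
  have hNp : ∀ κ : ℝ, ∑' j : ℕ, κ ^ j • B j p = ContinuousLinearMap.id ℝ (E q) := by
    intro κ
    rw [tsum_eq_single 0]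
    · rw [hB0]; simp
    · intro j hj
      obtain ⟨k, rfl⟩ := Nat.exists_eq_succ_of_ne_zero hj
      rw [Nat.succ_eq_add_one, hBp]; exact smul_zero (A := E q →L[ℝ] E q) (κ ^ (k + 1))
  refine ⟨fun κ y => ∑' j : ℕ, κ ^ j • B j y, ?_, ?_, ?_, ?_, ?_⟩
  · exact hder
  · intro y hy
    show ∑' j : ℕ, (0 : ℝ) ^ j • B j y = _
    rw [tsum_eq_single 0 (fun j hj => by rw [zero_pow hj]; exact zero_smul ℝ (B j y))]
    rw [hB0]; simp
  · intro κ y₀ hy₀
    by_contra hnu
    obtain ⟨l, hl0, hl⟩ := exists_functional _ hnu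
    set f : E q → (E q →L[ℝ] ℝ) := fun y => l.comp (∑' j : ℕ, κ ^ j • B j y) with hf
    have hfder : ∀ y, y ≠ 0 → HasFDerivAt f
        ((ContinuousLinearMap.compL ℝ (E q) (E q) ℝ l).comp
          (κ • ((ContinuousLinearMap.compL ℝ (E q) (E q) (E q)
            (∑' j : ℕ, κ ^ j • B j y)).comp (M y)))) y := by
      intro y hy
      exact (ContinuousLinearMap.hasFDerivAt (ContinuousLinearMap.compL ℝ (E q) (E q) ℝ l)).comp y
        (hder κ y hy)
    have h0 := hU q (E q →L[ℝ] ℝ) f _ (fun y => |κ| * ‖M y‖)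
      (continuousOn_const.mul (fun y hy =>
        ((continuous_norm (E := E q →L[ℝ] E q →L[ℝ] E q)).continuousAt.comp
          (hd.Msm y hy).continuousAt).continuousWithinAt))
      (fun y hy => ⟨hfder y hy, ?_⟩) ⟨y₀, hy₀, hl⟩ p hp
    · apply hl0
      have : l.comp (∑' j : ℕ, κ ^ j • B j p) = 0 := h0
      rw [hNp κ] at this
      simpa using this
    · refine ContinuousLinearMap.opNorm_le_bound _ (by positivity) (fun v => ?_)
      have e1 : ((ContinuousLinearMap.compL ℝ (E q) (E q) ℝ l).comp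
          (κ • ((ContinuousLinearMap.compL ℝ (E q) (E q) (E q)
            (∑' j : ℕ, κ ^ j • B j y)).comp (M y)))) v = κ • ((f y).comp (M y v)) := by
        ext w
        simp [hf]
      rw [e1, norm_smul, Real.norm_eq_abs]
      calc |κ| * ‖(f y).comp (M y v)‖ ≤ |κ| * (‖f y‖ * (‖M y‖ * ‖v‖)) := by
            gcongr
            exact (ContinuousLinearMap.opNorm_comp_le _ _).trans (by gcongr; exact (M y).le_opNorm v)
        _ = |κ| * ‖M y‖ * ‖f y‖ * ‖v‖ := by ring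
  · exact gen_cont B {y | y ≠ 0} isOpen_ne R (fun j z hz => hBc j z hz) (fun j z hz => hBn j z hz)
  · intro κ y hy r hr
    show ∑' j : ℕ, κ ^ j • B j (r • y) = ∑' j : ℕ, κ ^ j • B j y
    exact tsum_congr (fun j => by rw [hBh j y hy r hr])

end Pool.Agent.W961.LG
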